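import Pool.Agent.H82.Subrank.StepTwo
import Pool.Agent.H82.Subrank.StepThree
import Pool.Agent.H82.Subrank.StepFour

/-!
Subrank and rank of finite primitive permutation groups: the full positive answer, with an explicit
function, stated with the rank as the number of orbits on pairs and with the transitive constituents
as subgroups of the symmetric groups of the suborbits.
-/

set_option autoImplicit false

open MulAction
open scoped Pointwise

namespace Pool.Agent.Results.MP_812d11_al.SubrankBoundsRank

universe u

/-- The number of orbits of a permutation group on `X × X`: its rank (when it is transitive). -/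
noncomputable def rank {X : Type u} (H : Subgroup (Equiv.Perm X)) : ℕ :=
  Nat.card (orbitRel.Quotient H (X × X))

/-- The transitive constituent of `G_a` on the orbit of `d` under `G_a`: the image of `G_a` in the
symmetric group of this orbit. -/
def constituent {X : Type u} (G : Subgroup (Equiv.Perm X)) (a d : X) :
    Subgroup (Equiv.Perm (orbit (stabilizer G a) d)) :=
  (toPermHom (stabilizer G a) (orbit (stabilizer G a) d)).range

/-- Primitive permutation groups: at least two points, transitive, and equality and the universal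
relation are the only invariant equivalence relations (that is, the only invariant partitions are
the partition into singletons and the partition with one part). -/
structure Primitive {X : Type u} (G : Subgroup (Equiv.Perm X)) : Prop where
  two_points : ∃ x y : X, x ≠ y
  transitive : ∀ x y : X, ∃ g ∈ G, g x = y
  partitions : ∀ r : Setoid X, (∀ g ∈ G, ∀ x y : X, r x y → r (g x) (g y)) → r = ⊥ ∨ r = ⊤

/-- The bound for the lengths of the suborbits. -/
def C (m : ℕ) : ℕ := 2 * m ^ (8 * m * 4 ^ (m ^ 3))

/-- Auxiliary sequence. -/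
def t (c : ℕ) : ℕ → ℕ
  | 0 => 1
  | j + 1 => t c j * (c ^ (t c j + 1) + 1)

/-- The bound for the orders of the point stabilizers. -/
def B (m : ℕ) : ℕ := C m ^ t (C m) (C m - 1)

/-- The bound for the degrees of the exceptional groups. -/
def F (m : ℕ) : ℕ := C m + (B m ^ 2).factorial

private theorem t_eq (c j : ℕ) : H82.Subrank.tt c j = t c j := by
  induction j with
  | zero => rfl
  | succ j ih => rw [H82.Subrank.tt, t, ih]

private theorem isPreprimitive {X : Type u} {G : Subgroup (Equiv.Perm X)} (h : Primitive G) :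
    IsPreprimitive G X := by
  have htr : IsPretransitive G X := by
    refine ⟨fun x y => ?_⟩
    obtain ⟨g, hg, hxy⟩ := h.transitive x y
    exact ⟨⟨g, hg⟩, hxy⟩
  refine { isTrivialBlock_of_isBlock := ?_ }
  intro S hS
  by_cases hne : S.Nonempty
  swap
  · left
    rw [Set.not_nonempty_iff_eq_empty] at hne
    rw [hne]
    exact Set.subsingleton_empty
  obtain ⟨b, hb⟩ := hne
  let r : Setoid X :=
    { r := fun x y => ∀ g : G, x ∈ g • S ↔ y ∈ g • S
      iseqv := ⟨fun _ _ => Iff.rfl, fun h g => (h g).symm, fun h h' g => (h g).trans (h' g)⟩ }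
  have hr : ∀ x y, r x y ↔ ∀ g : G, x ∈ g • S ↔ y ∈ g • S := fun x y => Iff.rfl
  have hinv : ∀ g ∈ G, ∀ x y : X, r x y → r (g x) (g y) := by
    intro g hg x y hxy k
    have h1 : ∀ z : X, g z ∈ k • S ↔ z ∈ ((⟨g, hg⟩ : G)⁻¹ * k) • S := by
      intro z
      rw [mul_smul, Set.mem_inv_smul_set_iff]
      rfl
    rw [h1, h1]
    exact hxy _
  rcases h.partitions r hinv with h1 | h1
  · left
    intro x hx y hy
    have h2 : r x y := by
      intro g
      by_cases hg : g • S = S
      · rw [hg]
        exact ⟨fun _ => hy, fun _ => hx⟩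
      · have hd : Disjoint (g • S) S := by
          have h3 := hS (g₁ := g) (g₂ := 1)
          rw [one_smul] at h3
          exact h3 hg
        rw [Set.disjoint_left] at hd
        exact ⟨fun hz => absurd hx (hd hz), fun hz => absurd hy (hd hz)⟩
    rw [h1] at h2
    exact h2
  · right
    ext y
    simp only [Set.mem_univ, iff_true]
    have h2 : r b y := by
      rw [h1]
      trivial
    have h3 := h2 1
    rw [one_smul] at h3
    exact h3.1 hb

/-- the constituents have at least as many orbits on pairs as the number in the helper files -/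
private theorem ncard_le_rank {X : Type u} [Finite X] (G : Subgroup (Equiv.Perm X)) (a d : X) :
    Set.ncard {O : Set X | ∃ y ∈ orbit (stabilizer G a) d,
      O = orbit (stabilizer (stabilizer G a) d) y} ≤ rank (constituent G a d) := by
  classical
  rw [← Nat.card_coe_set_eq]
  unfold rank
  have hd : d ∈ orbit (stabilizer G a) d := mem_orbit_self d
  let Fn : {O : Set X | ∃ y ∈ orbit (stabilizer G a) d,
      O = orbit (stabilizer (stabilizer G a) d) y} →
      orbitRel.Quotient (constituent G a d)
        (orbit (stabilizer G a) d × orbit (stabilizer G a) d) :=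
    fun O => Quotient.mk _ (⟨d, hd⟩, ⟨O.2.choose, O.2.choose_spec.1⟩)
  apply Nat.card_le_card_of_injective Fn
  intro O O' hOO
  have h1 : ((⟨d, hd⟩, ⟨O.2.choose, O.2.choose_spec.1⟩) :
      orbit (stabilizer G a) d × orbit (stabilizer G a) d) ∈
      orbit (constituent G a d) ((⟨d, hd⟩, ⟨O'.2.choose, O'.2.choose_spec.1⟩) :
        orbit (stabilizer G a) d × orbit (stabilizer G a) d) := Quotient.exact hOO
  obtain ⟨⟨s, g, hg⟩, hs⟩ := h1
  have e1 : s ⟨d, hd⟩ = ⟨d, hd⟩ := congrArg Prod.fst hs
  have e2 : s ⟨O'.2.choose, O'.2.choose_spec.1⟩ = ⟨O.2.choose, O.2.choose_spec.1⟩ :=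
    congrArg Prod.snd hs
  rw [← hg] at e1 e2
  have e3 : g • d = d := congrArg Subtype.val e1
  have e4 : g • O'.2.choose = O.2.choose := congrArg Subtype.val e2
  apply Subtype.ext
  rw [O.2.choose_spec.2, O'.2.choose_spec.2, ← e4]
  have e5 : g • O'.2.choose = (⟨g, e3⟩ : stabilizer (stabilizer G a) d) • O'.2.choose := rfl
  rw [e5, orbit_smul]

/-- the rank is at most the degree -/
private theorem rank_le {X : Type u} [Finite X] (G : Subgroup (Equiv.Perm X))
    [IsPretransitive G X] (a : X) : rank G ≤ Nat.card X := by
  unfold rank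
  apply Nat.card_le_card_of_surjective
    (fun y : X => (Quotient.mk (orbitRel G (X × X)) (a, y)))
  intro q
  induction q using Quotient.inductionOn with
  | _ p =>
    obtain ⟨g, hg⟩ := exists_smul_eq G p.1 a
    refine ⟨g • p.2, ?_⟩
    apply Quotient.sound
    change (a, g • p.2) ∈ orbit G p
    exact ⟨g, Prod.ext hg rfl⟩

/-- a regular suborbit bounds the point stabilizer -/
private theorem regular_le {H X : Type*} [Group H] [Finite H] [MulAction H X] [Finite X] (y : X)
    (hy : stabilizer H y = ⊥) {m : ℕ}
    (h : Set.ncard {O : Set X | ∃ z ∈ orbit H y, O = orbit (stabilizer H y) z} ≤ m) :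
    Nat.card H ≤ m := by
  classical
  refine le_trans ?_ h
  rw [← Nat.card_coe_set_eq]
  have hsing : ∀ z : X, orbit (stabilizer H y) z = {z} := by
    intro z
    ext w
    rw [Set.mem_singleton_iff, mem_orbit_iff]
    constructor
    · rintro ⟨v, rfl⟩
      have hv : (v : H) ∈ stabilizer H y := v.2
      have hv1 : (v : H) ∈ (⊥ : Subgroup H) := (le_of_eq hy) hv
      rw [Subgroup.mem_bot] at hv1
      change (v : H) • z = z
      rw [hv1, one_smul]
    · rintro rfl
      exact ⟨1, one_smul _ _⟩
  let Fn : H → {O : Set X | ∃ z ∈ orbit H y, O = orbit (stabilizer H y) z} :=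
    fun g => ⟨orbit (stabilizer H y) (g • y), g • y, mem_orbit _ _, rfl⟩
  apply Nat.card_le_card_of_injective Fn
  intro g g' hgg
  have h1 : orbit (stabilizer H y) (g • y) = orbit (stabilizer H y) (g' • y) :=
    congrArg Subtype.val hgg
  rw [hsing, hsing, Set.singleton_eq_singleton_iff] at h1
  have h2 : g'⁻¹ * g ∈ stabilizer H y := by
    rw [mem_stabilizer_iff, mul_smul, h1, inv_smul_smul]
  rw [hy, Subgroup.mem_bot] at h2
  exact (inv_mul_eq_one.1 h2).symm

/-- the trichotomy -/
private theorem main {X : Type u} [Finite X] (G : Subgroup (Equiv.Perm X)) (hG : Primitive G)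
    (a : X) (m : ℕ) (hsub : ∀ d : X, rank (constituent G a d) ≤ m) :
    rank G ≤ m ^ 3 ∨
      (∀ d : X, Nat.card (orbit (stabilizer G a) d) ≤ C m) ∧
        (Nat.card X ≤ F m ∨
          (Nat.card (stabilizer G a) ≤ m ∧ ∃ d : X, stabilizer (stabilizer G a) d = ⊥)) := by
  classical
  have hprim : IsPreprimitive G X := isPreprimitive hG
  have hGpre : IsPretransitive G X := inferInstance
  have hfin : Finite G := inferInstance
  have hfaith : FaithfulSMul G X := inferInstance
  have := Fintype.ofFinite X
  have h1 : ∀ d : X, Set.ncard {O : Set X | ∃ y ∈ orbit (stabilizer G a) d,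
      O = orbit (stabilizer (stabilizer G a) d) y} ≤ m :=
    fun d => le_trans (ncard_le_rank G a d) (hsub d)
  have hm1 : 1 ≤ m := by
    refine le_trans ?_ (h1 a)
    rw [Nat.one_le_iff_ne_zero, ← Nat.pos_iff_ne_zero, Set.ncard_pos]
    exact ⟨_, a, mem_orbit_self a, rfl⟩
  have hK := H82.Subrank.card_KK G a h1
  rcases H82.Subrank.step_two G hm1 a hK with h3 | h3
  · exact Or.inl h3
  right
  have hC : ∀ x y : X, Nat.card (orbit (stabilizer G x) y) ≤ C m := by
    intro x y
    refine le_trans ?_ (h3 (H82.Subrank.orb G x y) x)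
    rw [Nat.card_coe_set_eq, ← Set.ncard_coe_finset]
    apply Set.ncard_le_ncard _ (Finset.finite_toSet _)
    rintro z ⟨g, rfl⟩
    rw [Finset.mem_coe, H82.Subrank.mem_DD]
    rw [H82.Subrank.orb_eq_iff]
    exact ⟨(g : G), g.2, rfl⟩
  refine ⟨hC a, ?_⟩
  by_cases hcard : Nat.card X ≤ C m
  · left
    unfold F
    omega
  have hB : ∀ x : X, Nat.card (stabilizer G x) ≤ B m := by
    intro x
    have h5 := (H82.Subrank.step_three x hC).resolve_left hcard
    rw [t_eq] at h5
    exact h5
  by_cases hreg : ∃ d : X, stabilizer (stabilizer G a) d = ⊥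
  · right
    obtain ⟨d, hd⟩ := hreg
    exact ⟨regular_le d hd (h1 d), d, hd⟩
  · left
    have h4 := H82.Subrank.step_four a hB (fun y hy => hreg ⟨y, hy⟩)
    unfold F
    omega

/-- Cameron's question on subrank and rank has a positive answer, with an explicit function. -/
theorem result :
    (∀ (X : Type u) [Finite X] (G : Subgroup (Equiv.Perm X)), Primitive G →
      ∀ (a : X) (m : ℕ), (∀ d : X, rank (constituent G a d) ≤ m) →
        rank G ≤ m ^ 3 ∨
          (∀ d : X, Nat.card (orbit (stabilizer G a) d) ≤ C m) ∧
            (Nat.card X ≤ F m ∨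
              (Nat.card (stabilizer G a) ≤ m ∧
                ∃ d : X, stabilizer (stabilizer G a) d = ⊥))) ∧
    ∀ (X : Type u) [Finite X] (G : Subgroup (Equiv.Perm X)), Primitive G →
      ∀ (a : X) (m : ℕ), IsGreatest (Set.range fun d : X => rank (constituent G a d)) m →
        rank G ≤ m ^ 3 + F m ∨ Nat.card (stabilizer G a) ≤ m := by
  refine ⟨fun X _ G hG a m h => main G hG a m h, ?_⟩
  intro X _ G hG a m hm
  have hprim : IsPreprimitive G X := isPreprimitive hG
  have hGpre : IsPretransitive G X := inferInstance
  rcases main G hG a m (fun d => hm.2 ⟨d, rfl⟩) with h | ⟨_, h | ⟨h, _⟩⟩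
  · left
    omega
  · left
    have h1 := rank_le G a
    omega
  · exact Or.inr h

end Pool.Agent.Results.MP_812d11_al.SubrankBoundsRank
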